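import Pool.Agent.Lib.MP_bc213e_ag.DF.Large0

/-! The leading exponents fill a large cube. -/

namespace Pool.Agent.Lib.MP_bc213e_ag.DD.Geo

open Pool.Agent.Lib.MP_bc213e_ag.Hyp Pool.Agent.Lib.MP_bc213e_ag.DA Pool.Agent.Lib.MP_bc213e_ag.Jet
open MvPowerSeries Module
open scoped TensorProduct

variable {K M ι : Type} [Field K] [Algebra ℂ K] [Field M] [Algebra ℂ M] [Algebra K M] {n : ℕ}
  {S : Su K M ι n} {Ω E : Type} [Field Ω] [Algebra ℂ Ω] [Field E] [Algebra ℂ E] [Algebra Ω E]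
  [IsScalarTower ℂ Ω E] {b φ : ℕ} (G : Geo S Ω E b φ) [CharZero E] [IsScalarTower ℂ K M]
  [Fintype ι]

omit [IsScalarTower ℂ K M] [Fintype ι] in
theorem large_mul {V V' : Submodule ℂ M} {μ : M} (h : ∀ f ∈ V, f * μ ∈ V') {t : Ω ⊗[ℂ] M}
    (ht : t ∈ V.baseChange Ω) : t * (1 : Ω) ⊗ₜ[ℂ] μ ∈ V'.baseChange Ω := by
  obtain ⟨t, rfl⟩ := ht
  induction t with
  | zero => simp
  | add s t hs ht =>
    rw [map_add, add_mul]
    exact add_mem hs ht
  | tmul c f =>
    rw [LinearMap.baseChange_tmul, Algebra.TensorProduct.tmul_mul_tmul]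
    exact Submodule.tmul_mem_baseChange_of_mem _ (h _ f.2)

omit [IsScalarTower ℂ K M] [Fintype ι] in
theorem large_ty_z (c : Fin φ) :
    G.ty ((1 : Ω) ⊗ₜ[ℂ] G.z₀ c) = MvPowerSeries.C (G.ι (G.z₀ c)) := by
  refine (tay_const (comm_rder (Comm.inl G.frame.comm)) (evT Ω G.ι).toRingHom fun i => ?_).trans ?_
  · have e : G.D₀ (Sum.inl i) (G.z₀ c) = 0 := (G.frame.dual (Sum.inl i) (Sum.inr c)).trans (by simp)
    rw [rder_tmul, e, TensorProduct.tmul_zero]
  · exact congrArg MvPowerSeries.C ((evT_tmul Ω G.ι 1 _).trans (by rw [map_one, one_mul]))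

omit [IsScalarTower ℂ K M] [Fintype ι] in
theorem large_ty_unit {σ : M} (h : σ ≠ 0) : IsUnit (G.ty ((1 : Ω) ⊗ₜ[ℂ] σ)) := by
  rw [isUnit_iff_constantCoeff]
  have e : constantCoeff (G.ty ((1 : Ω) ⊗ₜ[ℂ] σ)) = G.ι σ :=
    (constantCoeff_tay (comm_rder (Comm.inl G.frame.comm)) (evT Ω G.ι).toRingHom _).trans
      ((evT_tmul Ω G.ι 1 _).trans (by rw [map_one, one_mul]))
  rw [e]
  exact IsUnit.mk0 _ ((map_ne_zero _).2 h)

omit [Fintype ι] in
theorem large_prod_V {κ : Type} (s : Finset κ) {f : κ → M} {c : ℕ} (h : ∀ i, f i ∈ S.V c c) :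
    ∏ i ∈ s, f i ∈ S.V (s.card * c) (s.card * c) := by
  classical
  induction s using Finset.induction_on with
  | empty => simpa using S.one_mem_V 0 0
  | insert i s hi ih =>
    rw [Finset.prod_insert hi, Finset.card_insert_of_notMem hi, add_mul, one_mul, add_comm]
    exact Su.mul_mem_V (h i) ih

omit [Fintype ι] in
theorem large_prod_W {κ : Type} (s : Finset κ) {w : κ → E} {m a : ℕ} {α : κ → Fin b →₀ ℕ}
    (h : ∀ i, w i ∈ G.W m a (α i)) :
    ∏ i ∈ s, w i ∈ G.W (s.card * m) (s.card * a) (∑ i ∈ s, α i) := by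
  classical
  induction s using Finset.induction_on with
  | empty => simpa using G.one_mem_W 0 0
  | insert i s hi ih =>
    rw [Finset.prod_insert hi, Finset.sum_insert hi, Finset.card_insert_of_notMem hi, add_mul,
      add_mul, one_mul, one_mul, add_comm _ m, add_comm _ a]
    exact W_mul (h i) ih

theorem large_mono {F R κ : Type} [Field F] [CommRing R] [Algebra F R] [Fintype κ] {x : κ → R}
    (h : AlgebraicIndependent F x) (k : ℕ) :
    LinearIndependent F fun γ : κ → Fin k => ∏ c, x c ^ (γ c : ℕ) := by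
  have h1 := ((MvPolynomial.basisMonomials κ F).linearIndependent.map'
    (MvPolynomial.aeval x).toLinearMap (LinearMap.ker_eq_bot.2 h)).comp
    (fun γ : κ → Fin k => Finsupp.equivFunOnFinite.symm fun c => (γ c : ℕ)) fun γ γ' e =>
      funext fun c => Fin.ext (congrFun (Finsupp.equivFunOnFinite.symm.injective e) c)
  have e : (fun γ : κ → Fin k => ∏ c, x c ^ (γ c : ℕ)) =
      ((MvPolynomial.aeval x).toLinearMap ∘ MvPolynomial.basisMonomials κ F) ∘
        fun γ : κ → Fin k => Finsupp.equivFunOnFinite.symm fun c => (γ c : ℕ) := by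
    funext γ
    simp [MvPolynomial.aeval_monomial, Finsupp.prod_fintype]
  rw [e]
  exact h1

theorem large_deg {b D : ℕ} (hD : 0 < D) (β : Fin b → Fin (D / b)) :
    (Finsupp.equivFunOnFinite.symm fun i => (β i : ℕ) : Fin b →₀ ℕ).degree < D := by
  rw [Finsupp.degree_eq_sum]
  have h1 : ∑ i, ((β i : ℕ) + 1) ≤ ∑ _i : Fin b, D / b := Finset.sum_le_sum fun i _ => (β i).2
  rw [Finset.sum_add_distrib, Finset.sum_const, Finset.sum_const, Finset.card_univ,
    Fintype.card_fin, smul_eq_mul, smul_eq_mul, mul_one] at h1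
  have h2 := Nat.mul_div_le D b
  change ∑ i, (β i : ℕ) < D
  rcases Nat.eq_zero_or_pos b with rfl | hb
  · simpa using hD
  · omega

theorem large_num {b D g a k N : ℕ} (hb : 0 < b) (ha : 0 < a) (hk : 0 < k)
    (hg : g = 2 * (2 * b) ^ b * N + 2 * b + 1) (hD : g * a * k ≤ 2 * D) :
    0 < D ∧ N * k * D ^ (b - 1) < (D / b) ^ b := by
  have h1 : g * k ≤ 2 * D := (Nat.mul_le_mul_right k (Nat.le_mul_of_pos_right g ha)).trans hD
  have h2 : g ≤ 2 * D := (Nat.le_mul_of_pos_right g hk).trans h1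
  have h3 : b ≤ D := by omega
  have h4 : 0 < D := hb.trans_le h3
  refine ⟨h4, not_le.1 fun h => ?_⟩
  have h5 : D ≤ 2 * b * (D / b) := by
    have e1 := Nat.div_add_mod D b
    have e2 := Nat.mod_lt D hb
    have e3 := Nat.le_mul_of_pos_right b (Nat.div_pos h3 hb)
    rw [mul_assoc]
    omega
  have h6 : D * D ^ (b - 1) ≤ (2 * b) ^ b * N * k * D ^ (b - 1) := by
    rw [mul_pow_sub_one hb.ne']
    calc D ^ b ≤ (2 * b * (D / b)) ^ b := Nat.pow_le_pow_left h5 b
      _ = (2 * b) ^ b * (D / b) ^ b := mul_pow _ _ _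
      _ ≤ (2 * b) ^ b * (N * k * D ^ (b - 1)) := Nat.mul_le_mul_left _ h
      _ = _ := by ring
  have h7 := Nat.le_of_mul_le_mul_right h6 (pow_pos h4 _)
  have h8 : g * k = 2 * ((2 * b) ^ b * N * k) + (2 * b + 1) * k := by
    rw [hg]
    ring
  have h9 : 0 < (2 * b + 1) * k := by positivity
  omega

/-- Sketch: `exists_indep_mod` for the monomials with exponents below `D / b` gives `s i`; multiply
by `∏ c, (σ z c) ^ γ c * σ ^ (k - γ c)`, `γ c < k`; `ty (1 ⊗ z c) = C (ι (z c))`, `ty σ` is a unit,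
the `ι (z c)` are algebraically independent over `Ω`; `card_le_sum_Wl`. -/
theorem count : ∃ c : ℕ, 0 < c ∧ ∀ m a k D : ℕ, 0 < m → 0 < a → 0 < D →
    (∀ f : MvPowerSeries (Fin b) E,
      ∃ u ∈ Submodule.span G.E₀ (G.TS (k * m) (k * a)), f - u ∈ Ord (Fin b) E D) →
    ∀ A : Finset (Fin b →₀ ℕ),
      (∀ α : Fin b →₀ ℕ, α.degree < D → G.W (c * k * m) (c * k * a) α ≠ ⊥ → α ∈ A) →
      (D / b) ^ b * k ^ φ ≤ ∑ α ∈ A, finrank Ω (G.W (c * k * m) (c * k * a) α) := by
  obtain ⟨c₀, σ, hσ, hσ1, hσ2⟩ := S.ratio G.z₀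
  refine ⟨1 + φ * c₀, by omega, fun m a k D hm ha hD h A hA => ?_⟩
  let ex : (Fin b → Fin (D / b)) → Fin b →₀ ℕ :=
    fun β => Finsupp.equivFunOnFinite.symm fun i => (β i : ℕ)
  have hex : Function.Injective ex := fun β β' e =>
    funext fun c => Fin.ext (congrFun (Finsupp.equivFunOnFinite.symm.injective e) c)
  obtain ⟨s, hs, hsi⟩ := exists_indep_mod ((Ord (Fin b) E D).restrictScalars G.E₀)
    (G.TS (k * m) (k * a)) h (fun β => (monomial (ex β) 1 : MvPowerSeries (Fin b) E))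
    fun c hc β => by
      have h1 := hc (ex β) (large_deg hD β)
      rw [map_sum, Finset.sum_eq_single β (fun β' _ hne => ?_) (by simp)] at h1
      · change (c β : E) * coeff (ex β) (monomial (ex β) 1 : MvPowerSeries (Fin b) E) = 0 at h1
        rw [coeff_monomial_same, mul_one] at h1
        exact Subtype.ext h1
      · change (c β' : E) * coeff (ex β) (monomial (ex β') 1 : MvPowerSeries (Fin b) E) = 0
        rw [coeff_monomial_ne (hex.ne hne.symm), mul_zero]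
  choose t ht hts using hs
  let μ : (Fin φ → Fin k) → M := fun γ => σ ^ (φ * k) * ∏ c, G.z₀ c ^ (γ c : ℕ)
  have hμ : ∀ γ, μ γ ∈ S.V (φ * (k * c₀)) (φ * (k * c₀)) := fun γ => by
    have e : μ γ = ∏ c, ((σ * G.z₀ c) ^ (γ c : ℕ) * σ ^ (k - γ c)) := by
      have e1 : ∀ c, (σ * G.z₀ c) ^ (γ c : ℕ) * σ ^ (k - γ c) = σ ^ k * G.z₀ c ^ (γ c : ℕ) :=
        fun c => by rw [mul_pow, mul_right_comm, ← pow_add, Nat.add_sub_cancel' (γ c).2.le]
      simp only [e1, μ]
      rw [Finset.prod_mul_distrib, Finset.prod_const, Finset.card_univ, Fintype.card_fin,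
        ← pow_mul, mul_comm k]
    have h1 := large_prod_V (S := S) Finset.univ (c := k * c₀)
      (f := fun c => (σ * G.z₀ c) ^ (γ c : ℕ) * σ ^ (k - γ c)) fun c => by
        have h2 := Su.mul_mem_V (Su.pow_mem_V (hσ2 c) (γ c)) (Su.pow_mem_V hσ1 (k - γ c))
        rwa [← add_mul, Nat.add_sub_cancel' (γ c).2.le] at h2
    rwa [Finset.card_univ, Fintype.card_fin, ← e] at h1
  have hle : ∀ {m : ℕ}, 0 < m → k * m + φ * (k * c₀) ≤ (1 + φ * c₀) * k * m := fun {m} hm => by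
    have e : (1 + φ * c₀) * k * m = k * m + φ * (k * c₀) * m := by ring
    rw [e]
    exact Nat.add_le_add_left (Nat.le_mul_of_pos_right _ hm) _
  have := G.fd_tay ((1 + φ * c₀) * k * m) ((1 + φ * c₀) * k * a)
  have key := card_le_sum_Wl (((S.V ((1 + φ * c₀) * k * m) ((1 + φ * c₀) * k * a)).baseChange Ω).map
      (tayL Ω G.ι (Comm.inl G.frame.comm)).toLinearMap)
    (fun p : (Fin b → Fin (D / b)) × (Fin φ → Fin k) => G.ty (t p.1 * (1 : Ω) ⊗ₜ[ℂ] μ p.2))
    (fun p => ⟨_, large_mul (fun f hf => S.V_mono (hle hm) (hle ha) (Su.mul_mem_V hf (hμ p.2)))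
      (ht p.1), rfl⟩) (D := D) ?_ A hA
  · rw [Fintype.card_prod, Fintype.card_fun, Fintype.card_fun] at key
    simp only [Fintype.card_fin] at key
    exact key
  intro c hc
  obtain ⟨u, hu⟩ := (G.large_ty_unit hσ).pow (φ * k)
  have hz : ∀ γ, G.ty ((1 : Ω) ⊗ₜ[ℂ] μ γ) =
      (u : MvPowerSeries (Fin b) E) * MvPowerSeries.C (∏ c, G.ι (G.z₀ c) ^ (γ c : ℕ)) := fun γ => by
    have e : (1 : Ω) ⊗ₜ[ℂ] μ γ =
        ((1 : Ω) ⊗ₜ[ℂ] σ) ^ (φ * k) * ∏ c, ((1 : Ω) ⊗ₜ[ℂ] G.z₀ c) ^ (γ c : ℕ) := by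
      have e1 : ∀ f : M, (1 : Ω) ⊗ₜ[ℂ] f =
        (Algebra.TensorProduct.includeRight : M →ₐ[ℂ] Ω ⊗[ℂ] M) f := fun _ => rfl
      simp only [e1, μ, map_mul, map_pow, map_prod]
    rw [e, map_mul, map_pow, map_prod, map_prod, hu]
    simp only [map_pow, large_ty_z]
  let d : (Fin b → Fin (D / b)) → G.E₀ := fun β =>
    ⟨∑ γ : Fin φ → Fin k, c (β, γ) • ∏ c, G.ι (G.z₀ c) ^ (γ c : ℕ), sum_mem fun γ _ =>
      G.E₀.smul_mem (prod_mem fun c _ => pow_mem
        (IntermediateField.subset_adjoin _ _ (Set.mem_range_self c)) _)⟩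
  have hd : ∑ p : (Fin b → Fin (D / b)) × (Fin φ → Fin k),
      c p • G.ty (t p.1 * (1 : Ω) ⊗ₜ[ℂ] μ p.2) =
      (u : MvPowerSeries (Fin b) E) * ∑ β, d β • s β := by
    rw [Fintype.sum_prod_type, Finset.mul_sum]
    refine Finset.sum_congr rfl fun β _ => ?_
    have e : d β • s β = MvPowerSeries.C (d β : E) * s β := smul_eq_C_mul (s β) (d β : E)
    rw [e]
    simp only [d, map_sum, Finset.sum_mul, Finset.mul_sum]
    refine Finset.sum_congr rfl fun γ _ => ?_
    rw [map_mul, hts, hz, Algebra.smul_def, Algebra.smul_def, MvPowerSeries.algebraMap_apply,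
      map_mul]
    ring
  rw [hd] at hc
  have h0 := hsi d ((Ideal.unit_mul_mem_iff_mem _ u.isUnit).1 hc)
  rintro ⟨β, γ⟩
  exact Fintype.linearIndependent_iff.1 (large_mono (G.tb_E G.frame.tb).1 k) (fun γ => c (β, γ))
    (congrArg Subtype.val (h0 β)) γ

/-- Sketch: if not, all exponents have `α i < e c k` (`W_down`), so there are at most
`e c k D ^ (b - 1)` of degree below `D`, and each `W` has dimension at most
`B (c k a + 1) ^ φ ≤ B (c a + 1) ^ φ k ^ φ` (`W_le_R`, `R_dim`). Choose `g` large. -/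
theorem axis (e a : ℕ) (ha : 0 < a) : ∃ m₀, ∀ m, m₀ ≤ m → ∃ k, 0 < k ∧
    ∀ i : Fin b, G.W (k * m) (k * a) (Finsupp.single i (e * k)) ≠ ⊥ := by
  obtain ⟨c, hc, hcount⟩ := G.count
  obtain ⟨B, hB⟩ := G.R_dim
  obtain ⟨m₀, hm₀⟩ := G.onto (2 * (2 * b) ^ b * (e * c * (B * (c * a + 1) ^ φ)) + 2 * b + 1) a ha
  refine ⟨m₀ + 1, fun m hm => ?_⟩
  obtain ⟨k, D, hk, hD, h⟩ := hm₀ m (by omega)
  refine ⟨c * k, Nat.mul_pos hc hk, fun i hi => ?_⟩
  obtain ⟨hD0, hlt⟩ := large_num i.pos ha hk rfl hD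
  let t : Fin b → ℕ := fun j => if j = i then e * (c * k) else D
  let A : Finset (Fin b →₀ ℕ) := (Fintype.piFinset fun j => Finset.range (t j)).map
    Finsupp.equivFunOnFinite.symm.toEmbedding
  have hA : A.card = e * (c * k) * D ^ (b - 1) := by
    rw [Finset.card_map, Fintype.card_piFinset, ← Finset.mul_prod_erase _ _ (Finset.mem_univ i),
      Finset.prod_congr rfl (g := fun _ => D) fun j hj => by
        simp only [t, Finset.card_range, if_neg (Finset.ne_of_mem_erase hj)],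
      Finset.prod_const, Finset.card_erase_of_mem (Finset.mem_univ i), Finset.card_univ,
      Fintype.card_fin]
    simp only [t, Finset.card_range, if_true]
  have h1 := hcount m a k D (by omega) ha hD0 h A fun α h1 h2 => by
    refine Finset.mem_map.2 ⟨α, Fintype.mem_piFinset.2 fun j => Finset.mem_range.2 ?_,
      Finsupp.equivFunOnFinite_symm_coe α⟩
    by_cases hj : j = i
    · subst hj
      simp only [t, if_true]
      exact not_le.1 fun h3 => h2 (le_bot_iff.1 (hi ▸ G.W_down _ _ (Finsupp.single_le_iff.2 h3)))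
    · simp only [t, if_neg hj]
      exact (Finsupp.le_degree j α).trans_lt h1
  have h2 : ∀ α ∈ A, finrank Ω (G.W (c * k * m) (c * k * a) α) ≤ B * (c * a + 1) ^ φ * k ^ φ :=
    fun α _ => by
      have := G.fd_R (c * k * a)
      refine (Submodule.finrank_mono (G.W_le_R _ _ α)).trans ((hB _).trans ?_)
      rw [mul_assoc B, ← mul_pow]
      refine Nat.mul_le_mul_left _ (Nat.pow_le_pow_left ?_ _)
      rw [add_mul, one_mul, mul_right_comm]
      omega
  have h3 := h1.trans (Finset.sum_le_card_nsmul _ _ _ h2)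
  rw [hA, smul_eq_mul, ← mul_assoc] at h3
  have h4 := Nat.le_of_mul_le_mul_right h3 (pow_pos hk _)
  refine absurd (h4.trans (le_of_eq ?_)) (not_le.2 hlt)
  ring

/-- Multiply the elements of `axis` (`W_mul`), then `W_down`, `W_mono`. -/
theorem cube (e a : ℕ) (ha : 0 < a) : ∃ m₀, ∀ m, m₀ ≤ m → ∃ k, 0 < k ∧
    G.W (k * m) (k * a) ((e * k) • uno b) ≠ ⊥ := by
  obtain ⟨m₀, hm₀⟩ := G.axis (e * (b + 1)) a ha
  refine ⟨m₀, fun m hm => ?_⟩
  obtain ⟨k, hk, h⟩ := hm₀ m hm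
  refine ⟨(b + 1) * k, by positivity, ?_⟩
  choose w hw hw0 using fun i => (Submodule.ne_bot_iff _).1 (h i)
  have h1 := G.large_prod_W Finset.univ hw
  have e1 : ∑ i : Fin b, Finsupp.single i (e * (b + 1) * k) = (e * ((b + 1) * k)) • uno b := by
    ext j
    simp [Finsupp.finsetSum_apply, Finsupp.single_apply, mul_assoc]
  rw [e1, Finset.card_univ, Fintype.card_fin] at h1
  have e2 : ∀ m, b * (k * m) ≤ (b + 1) * k * m := fun m => by
    rw [mul_assoc]
    exact Nat.mul_le_mul_right _ b.le_succ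
  exact (Submodule.ne_bot_iff _).2 ⟨_, G.W_mono (e2 m) (e2 a) _ h1,
    Finset.prod_ne_zero_iff.2 fun i _ => hw0 i⟩

end Pool.Agent.Lib.MP_bc213e_ag.DD.Geo
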