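import Pool.Agent.Lib.MP_bc213e_ag.Jet.LemG
import Pool.Agent.Lib.MP_bc213e_ag.Jet.Cnt

/-! Two lemmas on truncated power series. -/

namespace Pool.Agent.Lib.MP_bc213e_ag.Jet

open MvPowerSeries Module

variable {σ F R : Type} [Field F] [CommRing R] [Algebra F R]

/-- Induction on `D`: the terms of degree `D` of an element of `Ord D` are monomials that lie in
`Q` or are approximated by `M`. -/
theorem tri [Finite σ] (M : Submodule F (MvPowerSeries σ R)) {N : ℕ}
    (hM : ∀ (β : σ →₀ ℕ) (r : R), (∀ i, β i < N) →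
      ∃ u ∈ M, monomial β r - u ∈ Ord σ R (β.degree + 1))
    {Q : Ideal (MvPowerSeries σ R)} (hQ : ∀ i, X i ^ N ∈ Q) (D : ℕ) (f : MvPowerSeries σ R) :
    ∃ u ∈ M, f - u ∈ Q ⊔ Ord σ R D := by
  classical
  induction D with
  | zero => exact ⟨0, zero_mem _, Ideal.mem_sup_right fun β hβ => absurd hβ (Nat.not_lt_zero _)⟩
  | succ D ih =>
    obtain ⟨u₀, h1, h2⟩ := ih
    obtain ⟨q, hq, g, hg, e0⟩ := Submodule.mem_sup.1 h2
    have key : ∀ β : σ →₀ ℕ, ∃ u ∈ M, monomial β (coeff β g) - u ∈ Q ⊔ Ord σ R (D + 1) := by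
      intro β
      by_cases hD : β.degree < D
      · exact ⟨0, zero_mem _, by simp [hg β hD]⟩
      by_cases hβ : ∀ i, β i < N
      · obtain ⟨u, h3, h4⟩ := hM β (coeff β g) hβ
        exact ⟨u, h3, Ideal.mem_sup_right (Ord_anti (by omega) h4)⟩
      · obtain ⟨i, hi⟩ := not_forall.1 hβ
        refine ⟨0, zero_mem _, Ideal.mem_sup_left ?_⟩
        have e : monomial β (coeff β g) =
            X i ^ N * monomial (β - Finsupp.single i N) (coeff β g) := by
          rw [X_pow_eq, monomial_mul_monomial, one_mul,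
            add_tsub_cancel_of_le (Finsupp.single_le_iff.2 (not_lt.1 hi))]
        rw [sub_zero, e]
        exact Q.mul_mem_right _ (hQ i)
    choose u hu hu' using key
    set T := (Finsupp.finite_of_degree_lt (σ := σ) (D + 1)).toFinset with hT
    refine ⟨u₀ + ∑ β ∈ T, u β, add_mem h1 (sum_mem fun β _ => hu β), ?_⟩
    have e : f - (u₀ + ∑ β ∈ T, u β) = q + (∑ β ∈ T, (monomial β (coeff β g) - u β) +
        (g - ∑ β ∈ T, monomial β (coeff β g))) := by
      rw [Finset.sum_sub_distrib]
      linear_combination -e0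
    rw [e]
    refine add_mem (Ideal.mem_sup_left hq) (add_mem (sum_mem fun β _ => hu' β)
      (Ideal.mem_sup_right fun γ hγ => ?_))
    rw [map_sub, map_sum, Finset.sum_eq_single γ (fun β _ hne => coeff_monomial_ne hne.symm _)
      (fun h => absurd ((Finsupp.finite_of_degree_lt (σ := σ) (D + 1)).mem_toFinset.2 hγ) h),
      coeff_monomial_same, sub_self]

theorem tri_indep {N : Type} [AddCommGroup N] [Module F N] (Q : Submodule F N) {J : Type}
    [Fintype J] (f : J → N) : LinearIndependent F (fun i => Q.mkQ (f i)) ↔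
      ∀ c : J → F, ∑ i, c i • f i ∈ Q → ∀ i, c i = 0 := by
  rw [Fintype.linearIndependent_iff]
  refine forall_congr' fun c => imp_congr_left ?_
  rw [← Submodule.Quotient.mk_eq_zero, ← Submodule.mkQ_apply, map_sum]
  simp only [map_smul]

/-- Sketch: take an adapted basis of `V`; the members with exponent of degree at least `D` lie in
`Ord D` (`Fil_le_Ord`), the number of the others is the sum on the right. -/
theorem card_le_sum_Wl [LinearOrder σ] [WellFoundedGT σ] (V : Submodule F (MvPowerSeries σ R))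
    [FiniteDimensional F V] {J : Type} [Fintype J] (f : J → MvPowerSeries σ R) (hf : ∀ i, f i ∈ V)
    {D : ℕ} (h : ∀ c : J → F, ∑ i, c i • f i ∈ Ord σ R D → ∀ i, c i = 0) (A : Finset (σ →₀ ℕ))
    (hA : ∀ α : σ →₀ ℕ, α.degree < D → Wl MonomialOrder.degLex V α ≠ ⊥ → α ∈ A) :
    Fintype.card J ≤ ∑ α ∈ A, finrank F (Wl MonomialOrder.degLex V α) := by
  classical
  obtain ⟨N, b, e, rfl, hb⟩ := exists_adapted MonomialOrder.degLex V
  have h1 : ∀ α, finrank F (Wl MonomialOrder.degLex (Submodule.span F (Set.range b)) α) =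
      (Finset.univ.filter fun i => e i = α).card := fun α => by
    rw [hb.Wl_span, finrank_span_eq_card (hb.2 α), Fintype.card_subtype]
  simp only [h1, Finset.sum_card_fiberwise_eq_card_filter]
  set Q : Submodule F (MvPowerSeries σ R) := (Ord σ R D).restrictScalars F with hQ
  set T := Finset.univ.filter fun i => e i ∈ A with hT
  have h2 := linearIndependent_le_span_aux' _ ((tri_indep Q f).2 h)
    (T.image fun i => Q.mkQ (b i) : Finset _) (by
      rintro _ ⟨j, rfl⟩
      obtain ⟨c, hc⟩ := (Submodule.mem_span_range_iff_exists_fun F).1 (hf j)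
      simp only [← hc, map_sum, map_smul, SetLike.mem_coe]
      refine Submodule.sum_mem _ fun i _ => Submodule.smul_mem _ _ ?_
      by_cases hi : (e i).degree < D
      · refine Submodule.subset_span (Finset.mem_coe.2 (Finset.mem_image_of_mem _
          (Finset.mem_filter.2 ⟨Finset.mem_univ i, hA _ hi fun h' => ?_⟩)))
        have := h1 (e i)
        rw [h', finrank_bot] at this
        exact Finset.card_ne_zero.2 ⟨i, by simp⟩ this.symm
      · rw [Submodule.mkQ_apply, (Submodule.Quotient.mk_eq_zero Q).2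
          (Ord_anti (not_lt.1 hi) (Fil_le_Ord _ (hb.1 i)))]
        exact zero_mem _)
  simp only [Finset.coe_sort_coe, Fintype.card_coe] at h2
  exact h2.trans Finset.card_image_le

/-- If `U` spans everything modulo `Q` over `F`, then any number of elements that are independent
modulo `Q` can be replaced by elements of `U`. -/
theorem exists_indep_mod {N : Type} [AddCommGroup N] [Module F N] (Q : Submodule F N) (U : Set N)
    (hU : ∀ f, ∃ u ∈ Submodule.span F U, f - u ∈ Q) {J : Type} [Fintype J] (f : J → N)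
    (h : ∀ c : J → F, ∑ i, c i • f i ∈ Q → ∀ i, c i = 0) :
    ∃ f' : J → N, (∀ i, f' i ∈ U) ∧ ∀ c : J → F, ∑ i, c i • f' i ∈ Q → ∀ i, c i = 0 := by
  obtain ⟨b, hb, h1, h2⟩ := exists_linearIndependent F (Q.mkQ '' U)
  have h3 : Submodule.span F b = ⊤ := by
    rw [h1, ← Submodule.map_span, eq_top_iff]
    rintro x -
    obtain ⟨g, rfl⟩ := Q.mkQ_surjective x
    obtain ⟨u, h4, h5⟩ := hU g
    exact ⟨u, h4, ((Submodule.Quotient.eq Q).2 h5).symm⟩
  obtain ⟨ι⟩ := linearIndependent_le_span'' ((tri_indep Q f).2 h) b h3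
  choose g h4 h5 using fun i => hb (ι i).2
  refine ⟨g, h4, (tri_indep Q g).1 ?_⟩
  simp only [h5]
  exact h2.comp ι ι.injective

end Pool.Agent.Lib.MP_bc213e_ag.Jet
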