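import Pool.Agent.Lib.MP_bc213e_ag.DF.W
import Pool.Agent.Lib.MP_bc213e_ag.DF.Tri
import Pool.Agent.Lib.MP_bc213e_ag.DB.Fibre

/-! The sections generate jets transversal to the fibre at a high rate. -/

namespace Pool.Agent.Lib.MP_bc213e_ag.DD.Geo

open Pool.Agent.Lib.MP_bc213e_ag.Hyp Pool.Agent.Lib.MP_bc213e_ag.DA Pool.Agent.Lib.MP_bc213e_ag.Jet
open MvPowerSeries Module
open scoped TensorProduct

variable {K M ι : Type} [Field K] [Algebra ℂ K] [Field M] [Algebra ℂ M] [Algebra K M] {n : ℕ}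
  {S : Su K M ι n} {Ω E : Type} [Field Ω] [Algebra ℂ Ω] [Field E] [Algebra ℂ E] [Algebra Ω E]
  [IsScalarTower ℂ Ω E] {b φ : ℕ} (G : Geo S Ω E b φ) [CharZero E] [IsScalarTower ℂ K M]
  [Fintype ι]

/-- The Taylor expansion in the reference frame. -/
noncomputable abbrev ty : Ω ⊗[ℂ] M →ₐ[Ω] MvPowerSeries (Fin b) E :=
  tayL Ω G.ι (Comm.inl G.frame.comm)

/-- The field generated by the coordinates along the fibre. -/
abbrev E₀ : IntermediateField Ω E := IntermediateField.adjoin Ω (Set.range fun c => G.ι (G.z₀ c))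

/-- The expansions of the sections. -/
def TS (m a : ℕ) : Set (MvPowerSeries (Fin b) E) := G.ty '' (S.V m a).baseChange Ω

omit [IsScalarTower ℂ K M] [Fintype ι] in
/-- Jets have expansions of high order. -/
theorem ty_Jet {s : Ω ⊗[ℂ] M} {j : ℕ} (h : s ∈ Jet (RD ℂ Ω M) (RingHom.ker (evT Ω G.ι)) j) :
    G.ty s ∈ Ord (Fin b) E j := by
  have key : ∀ (β : Fin b →₀ ℕ) (l : ℕ), l + β.degree ≤ j →
      dpow (comm_rder (Comm.inl G.frame.comm)) β s ∈
        Jet (RD ℂ Ω M) (RingHom.ker (evT Ω G.ι)) l := fun β => by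
    induction β using deg_ind with
    | h0 =>
      intro l hl
      rw [dpow_zero]
      exact Jet_anti (le_self_add.trans hl) h
    | h1 β i ih =>
      intro l hl
      rw [map_add, Finsupp.degree_single] at hl
      rw [dpow_add_single]
      exact (ih (l + 1) (by omega)).2.2 _ ⟨_, rfl⟩
  exact fun β hβ => (coeff_tayL_eq_zero _ _ _ _).2 (mem_Jet_one.1 (key β 1 (by omega)))

omit [IsScalarTower ℂ K M] [Fintype ι] in
theorem ty_eps (i : Fin b) :
    G.ty ((1 : Ω) ⊗ₜ[ℂ] G.y i - G.e (G.y i) ⊗ₜ[ℂ] (1 : M)) = MvPowerSeries.X i := by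
  have h1 : G.ty ((1 : Ω) ⊗ₜ[ℂ] G.y i) =
      MvPowerSeries.C (evT Ω G.ι ((1 : Ω) ⊗ₜ[ℂ] G.y i)) + MvPowerSeries.X i :=
    tay_coord (comm_rder (Comm.inl G.frame.comm)) _ fun l => by
      rw [rder_tmul, G.D_inl G.frame]
      split_ifs
      exacts [rfl, TensorProduct.tmul_zero _ _]
  have h2 : G.ty (G.e (G.y i) ⊗ₜ[ℂ] (1 : M)) = MvPowerSeries.C (algebraMap Ω E (G.e (G.y i))) :=
    (G.ty.commutes _).trans MvPowerSeries.algebraMap_apply
  rw [map_sub, h1, h2, evT_one, G.ι_k (G.y_mem i), add_sub_cancel_left]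

omit [IsScalarTower ℂ K M] [Fintype ι] in
theorem ty_unit {s : Ω ⊗[ℂ] M} (h : evT Ω G.ι s ≠ 0) : IsUnit (G.ty s) :=
  isUnit_iff_constantCoeff.2 (IsUnit.mk0 _ (by rwa [constantCoeff_tayL]))

omit [Fintype ι] in
theorem TS_one {m a : ℕ} {f : M} (h : f ∈ S.V m a) : G.ty ((1 : Ω) ⊗ₜ[ℂ] f) ∈ G.TS m a :=
  ⟨_, Submodule.tmul_mem_baseChange_of_mem _ h, rfl⟩

omit [Fintype ι] in
theorem TS_mono {m m' a a' : ℕ} (hm : m ≤ m') (ha : a ≤ a') : G.TS m a ⊆ G.TS m' a' :=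
  Set.image_mono (Submodule.baseChange_mono Ω (S.V_mono hm ha))

omit [Fintype ι] in
variable {G} in
theorem TS_mul {m m' a a' : ℕ} {u v : MvPowerSeries (Fin b) E} (hu : u ∈ G.TS m a)
    (hv : v ∈ G.TS m' a') : u * v ∈ G.TS (m + m') (a + a') := by
  obtain ⟨s, hs, rfl⟩ := hu
  obtain ⟨t, ht, rfl⟩ := hv
  exact ⟨s * t, baseChange_mul (fun _ hf _ hg => Su.mul_mem_V hf hg) hs ht, map_mul _ _ _⟩

omit [Fintype ι] in
variable {G} in
theorem TS_pow {m a : ℕ} {u : MvPowerSeries (Fin b) E} (hu : u ∈ G.TS m a) (N : ℕ) :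
    u ^ N ∈ G.TS (N * m) (N * a) := by
  induction N with
  | zero => exact (pow_zero u).symm ▸ map_one G.ty ▸ G.TS_one (S.one_mem_V _ _)
  | succ N ih =>
    rw [pow_succ, Nat.succ_mul, Nat.succ_mul]
    exact TS_mul ih hu

omit [Fintype ι] in
/-- `Fib.large` with one common level. -/
theorem large_level (g a : ℕ) (ha : 0 < a) : ∃ (A m₀ N : ℕ) (T : Set (MvPowerSeries (Fin b) E)),
    0 < A ∧ T ⊆ G.TS m₀ (A * a) ∧ Ideal.span T ≤ Ord (Fin b) E (g * (A * a)) ∧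
      ∀ i, MvPowerSeries.X i ^ N ∈ Ideal.span T := by
  obtain ⟨Z, r, N, hr, hZ, hN⟩ := G.large g
  choose! l l0 l1 l2 using hZ
  have h1 : ∀ s ∈ Z, ∃ m, s ∈ (S.V m (l s)).baseChange Ω := fun s hs =>
    mem_baseChange_iSup (fun _ _ h => S.V_mono h le_rfl) (S.U_eq_iSup _ ▸ l1 s hs)
  choose! m hm using h1
  have h2 : ∀ s ∈ Z, ∃ q, 0 < q ∧ q * l s = (∏ t ∈ Z, l t) * a := fun s hs => by
    obtain ⟨c, hc⟩ := Finset.dvd_prod_of_mem l hs
    refine ⟨c * a, Nat.mul_pos (Nat.pos_of_mul_pos_left (hc ▸ Finset.prod_pos l0)) ha, ?_⟩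
    rw [hc]
    ring
  choose! q q0 q1 using h2
  let T : Set (MvPowerSeries (Fin b) E) := (fun s => G.ty s ^ q s) '' Z
  have h3 : ∀ i, MvPowerSeries.X i ∈ (Ideal.span T).radical := fun i => by
    have h4 : Ideal.span (Z : Set (Ω ⊗[ℂ] M)) ≤ (Ideal.span T).radical.comap G.ty :=
      Ideal.span_le.2 fun s hs => ⟨q s, Ideal.subset_span ⟨s, hs, rfl⟩⟩
    have h5 := h4 (hN _ (Ideal.pow_mem_pow (neg_mem (G.eps_mem (G.y_mem i))) N))
    rw [Ideal.mem_comap, map_mul, map_pow, neg_sub, ty_eps,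
      Ideal.unit_mul_mem_iff_mem _ (G.ty_unit hr)] at h5
    exact Ideal.mem_radical_of_pow_mem h5
  choose N' hN' using h3
  refine ⟨∏ t ∈ Z, l t, Z.sup fun s => q s * m s, Finset.univ.sup N', T, Finset.prod_pos l0, ?_,
    Ideal.span_le.2 ?_, fun i => Ideal.pow_mem_of_pow_mem _ (hN' i)
      (Finset.le_sup (Finset.mem_univ i))⟩
  · rintro _ ⟨s, hs, rfl⟩
    exact G.TS_mono (Finset.le_sup (f := fun s => q s * m s) hs) (q1 s hs).le
      (TS_pow ⟨s, hm s hs, rfl⟩ _)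
  · rintro _ ⟨s, hs, rfl⟩
    have h4 := G.ty_Jet (Jet_pow (l2 s hs) (q s))
    rwa [map_pow, mul_left_comm, q1 s hs] at h4

omit [CharZero E] in
/-- The function field of the fibre is spanned over `E₀` by finitely many restrictions. -/
theorem span_E₀ : ∃ (κ : Type) (_ : Finite κ) (f : κ → M),
    ∀ r, r ∈ Submodule.span G.E₀ (Set.range fun l => G.ι (f l)) := by
  have := S.essFin
  have := G.essFiniteType
  have : Algebra.IsAlgebraic G.E₀ E := (G.tb_E G.frame.tb).isAlgebraic_field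
  have : Algebra.EssFiniteType G.E₀ E := .of_comp Ω _ _
  have : Module.Finite G.E₀ E := Algebra.finite_of_essFiniteType_of_isAlgebraic
  have h1 : ∀ r, r ∈ Submodule.span G.E₀ (Set.range G.ι) := fun r => by
    have h2 : r ∈ IntermediateField.adjoin G.E₀ (Set.range G.ι) :=
      G.top_of (L := (IntermediateField.adjoin G.E₀ (Set.range G.ι)).toSubfield)
        (fun c => (IntermediateField.adjoin G.E₀ _).algebraMap_mem (algebraMap Ω G.E₀ c))
        (fun f => IntermediateField.subset_adjoin _ _ ⟨f, rfl⟩) r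
    rw [← IntermediateField.mem_toSubalgebra, IntermediateField.adjoin_toSubalgebra_of_isAlgebraic
      fun x _ => Algebra.IsAlgebraic.isAlgebraic x, ← Subalgebra.mem_toSubmodule,
      Algebra.adjoin_eq_span] at h2
    exact Submodule.span_mono (Submonoid.closure_eq (MonoidHom.mrange G.ι)).le h2
  obtain ⟨t, h2, h3, h4⟩ := exists_linearIndependent G.E₀ (Set.range G.ι)
  choose f hf using fun l : t => h2 l.2
  refine ⟨t, h4.finite, f, fun r => ?_⟩
  simp only [hf, Subtype.range_coe_subtype, Set.ofPred_mem_eq, h3, h1]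

theorem base (N : ℕ) : ∃ c : ℕ, ∀ Q : Ideal (MvPowerSeries (Fin b) E),
    (∀ i, MvPowerSeries.X i ^ N ∈ Q) → ∀ (D : ℕ) (f : MvPowerSeries (Fin b) E),
      ∃ u ∈ Submodule.span G.E₀ (G.TS c c), f - u ∈ Q ⊔ Ord (Fin b) E D := by
  obtain ⟨κ, _, f, hf⟩ := G.span_E₀
  obtain ⟨c, σ, h0, h1, h2⟩ := S.ratio (Sum.elim G.y f)
  have hw := G.TS_one h1
  have hu := G.ty_unit (s := (1 : Ω) ⊗ₜ[ℂ] σ) (by rw [evT_one]; exact (map_ne_zero _).2 h0)
  have h3 : ∀ g : M, G.ty ((1 : Ω) ⊗ₜ[ℂ] (σ * g)) = G.ty ((1 : Ω) ⊗ₜ[ℂ] σ) * G.ty (1 ⊗ₜ[ℂ] g) :=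
    fun g => by rw [← map_mul, Algebra.TensorProduct.tmul_mul_tmul, one_mul]
  have h4 : ∀ i, G.ty ((1 : Ω) ⊗ₜ[ℂ] σ) * MvPowerSeries.X i ∈ G.TS c c := fun i => by
    rw [← G.ty_eps, ← map_mul, mul_sub, Algebra.TensorProduct.tmul_mul_tmul,
      Algebra.TensorProduct.tmul_mul_tmul, mul_one σ]
    exact ⟨_, sub_mem (Submodule.tmul_mem_baseChange_of_mem _ (h2 (Sum.inl i)))
      (Submodule.tmul_mem_baseChange_of_mem _ h1), rfl⟩
  have h5 := fun l => h3 _ ▸ G.TS_one (h2 (Sum.inr l))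
  generalize G.ty ((1 : Ω) ⊗ₜ[ℂ] σ) = w at hw hu h4 h5
  have h6 : ∀ β : Fin b →₀ ℕ,
      w ^ β.degree * monomial β 1 ∈ G.TS (β.degree * c) (β.degree * c) := fun β => by
    induction β using deg_ind with
    | h0 => simpa using TS_pow hw 0
    | h1 β i ih =>
      have h7 := TS_mul ih (h4 i)
      rwa [mul_mul_mul_comm, ← pow_succ, ← Nat.succ_mul, X_def, monomial_mul_monomial, one_mul,
        show β.degree.succ = (β + Finsupp.single i 1).degree by
          rw [map_add, Finsupp.degree_single],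
        show β.degree + 1 = (β + Finsupp.single i 1).degree by
          rw [map_add, Finsupp.degree_single]] at h7
  refine ⟨(b * N + 1) * c, fun Q hQ D φ => ?_⟩
  obtain ⟨v, hv⟩ := (hu.pow (b * N + 1)).exists_right_inv
  have key := tri ((Submodule.span G.E₀ (G.TS ((b * N + 1) * c) ((b * N + 1) * c))).comap
    (LinearMap.mulLeft G.E₀ (w ^ (b * N + 1)))) (N := N) (fun β r hβ => ?_) hQ D (v * φ)
  · obtain ⟨u, u1, u2⟩ := key
    refine ⟨_, u1, ?_⟩
    have h7 := Ideal.mul_mem_left _ (w ^ (b * N + 1)) u2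
    rwa [mul_sub, ← mul_assoc, hv, one_mul] at h7
  have hd : β.degree ≤ b * N := by
    rw [Finsupp.degree_eq_sum]
    simpa using Finset.sum_le_card_nsmul Finset.univ β N fun i _ => (hβ i).le
  induction hf r using Submodule.span_induction with
  | mem r hr =>
    obtain ⟨l, rfl⟩ := hr
    obtain ⟨d, hd'⟩ := Nat.exists_eq_add_of_le hd
    refine ⟨monomial β 1 * G.ty (1 ⊗ₜ[ℂ] f l), Submodule.subset_span ?_, ?_⟩
    · have h7 := TS_mul (TS_mul (h6 β) (TS_pow hw d)) (h5 l)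
      rw [← add_mul, ← Nat.succ_mul, ← hd'] at h7
      convert h7 using 1
      change w ^ (b * N + 1) * _ = _
      rw [hd', Sum.elim_inr]
      ring
    · have h7 : (monomial β (G.ι (f l)) : MvPowerSeries (Fin b) E) =
          monomial β 1 * MvPowerSeries.C (G.ι (f l)) := by
        rw [← monomial_zero_eq_C_apply, monomial_mul_monomial, add_zero, one_mul]
      rw [h7, ← mul_sub]
      refine Ord_mul (fun γ hγ => coeff_monomial_ne (fun e => ?_) _) fun γ hγ => ?_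
      · rw [e] at hγ
        exact lt_irrefl _ hγ
      · rw [(Finsupp.degree_eq_zero_iff γ).1 (Nat.lt_one_iff.1 hγ),
          coeff_zero_eq_constantCoeff_apply, map_sub, constantCoeff_C, constantCoeff_tayL, evT_one,
          sub_self]
  | zero => exact ⟨0, zero_mem _, by simp⟩
  | add r r' _ _ h h' =>
    obtain ⟨u, u1, u2⟩ := h
    obtain ⟨u', u3, u4⟩ := h'
    exact ⟨u + u', add_mem u1 u3, by rw [map_add, add_sub_add_comm]; exact add_mem u2 u4⟩
  | smul a r _ h =>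
    obtain ⟨u, u1, u2⟩ := h
    refine ⟨a • u, Submodule.smul_mem _ a u1, ?_⟩
    rw [LinearMap.map_smul_of_tower, ← smul_sub]
    exact Submodule.smul_of_tower_mem _ a u2

theorem onto (g a : ℕ) (ha : 0 < a) : ∃ m₀, ∀ m, m₀ ≤ m → ∃ k D : ℕ, 0 < k ∧ g * a * k ≤ 2 * D ∧
    ∀ f : MvPowerSeries (Fin b) E,
      ∃ u ∈ Submodule.span G.E₀ (G.TS (k * m) (k * a)), f - u ∈ Ord (Fin b) E D := by
  obtain ⟨A, m₀, N, T, hA, h1, h2, h3⟩ := G.large_level g a ha
  obtain ⟨c, hc⟩ := G.base N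
  refine ⟨m₀ + 1, fun m hm => ⟨c + (c + 1) * A, (c + 1 + 1) * (g * (A * a)), by positivity, ?_,
    fun f => ?_⟩⟩
  · have h4 : c ≤ c * A := Nat.le_mul_of_pos_right c hA
    calc g * a * (c + (c + 1) * A) ≤ g * a * (2 * ((c + 1 + 1) * A)) :=
          Nat.mul_le_mul_left _ (by nlinarith)
      _ = _ := by ring
  obtain ⟨u, u1, u2⟩ := lemG (fun k => Submodule.span G.E₀ (G.TS (k * m) (k * a)))
    (fun k k' u hu v hv => by
      refine Submodule.span_mono ?_
        ((Submodule.span_mul_span G.E₀ _ _).le (Submodule.mul_mem_mul hu hv))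
      rw [add_mul, add_mul]
      exact Set.mul_subset_iff.2 fun _ h _ h' => TS_mul h h') (k₀ := A) (c := c) (S := T)
    (fun s hs => Submodule.subset_span (G.TS_mono
      ((by omega : m₀ ≤ m).trans (Nat.le_mul_of_pos_left m hA)) le_rfl (h1 hs)))
    (w := 1) (Submodule.subset_span (map_one G.ty ▸ G.TS_one (S.one_mem_V _ _))) isUnit_one
    (Ord (Fin b) E ((c + 1 + 1) * (g * (A * a)))) (fun f => by
      obtain ⟨u, u1, u2⟩ := hc _ h3 ((c + 1 + 1) * (g * (A * a))) f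
      exact ⟨u, Submodule.span_mono (G.TS_mono (Nat.le_mul_of_pos_right c (by omega))
        (Nat.le_mul_of_pos_right c ha)) u1, u2⟩) (c + 1) f
  exact ⟨u, u1, sup_le (Ord_pow h2 _) le_rfl u2⟩

end Pool.Agent.Lib.MP_bc213e_ag.DD.Geo
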