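import Pool.Agent.Lib.MP_bc213e_ag.DF.W
import Pool.Agent.Lib.MP_bc213e_ag.DB.Fibre

/-! Consequences of the properties of the Taylor expansion at a point. -/

namespace Pool.Agent.Lib.MP_bc213e_ag.DD.Geo.Tau

open Pool.Agent.Lib.MP_bc213e_ag.Hyp Pool.Agent.Lib.MP_bc213e_ag.DA Pool.Agent.Lib.MP_bc213e_ag.Jet
open MvPowerSeries Module
open scoped TensorProduct

variable {K M ι : Type} [Field K] [Algebra ℂ K] [Field M] [Algebra ℂ M] [Algebra K M] {n : ℕ}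
  {S : Su K M ι n} {Ω E : Type} [Field Ω] [Algebra ℂ Ω] [Field E] [Algebra ℂ E] [Algebra Ω E]
  [IsScalarTower ℂ Ω E] {b φ : ℕ} {G : Geo S Ω E b φ} [IsScalarTower ℂ K M]
  {c₀ e₀ : ℕ} {j : ι} {ev : G.C j →ₐ[Ω] Ω} (T : G.Tau c₀ e₀ j ev)

theorem B_le {f : M} (h : f ∈ S.B j) : f ∈ T.O :=
  (T.mem_O f).2 ⟨1, one_mem _, by rw [map_one, T.τF_one, map_one]; exact one_ne_zero,
    by rwa [one_mul]⟩

theorem C_le {f : E} (h : f ∈ G.C j) : f ∈ T.OF :=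
  (T.mem_OF f).2 ⟨1, one_mem _, by rw [T.τF_one, map_one]; exact one_ne_zero, by rwa [one_mul]⟩

theorem ι_mem {f : M} (h : f ∈ T.O) : G.ι f ∈ T.OF := by
  obtain ⟨g, h1, h2, h3⟩ := (T.mem_O f).1 h
  exact (T.mem_OF _).2 ⟨G.ι g, G.ι_mem_C h1, h2, by rw [← map_mul]; exact G.ι_mem_C h3⟩

theorem inv_mem_O {f : M} (h : f ∈ T.O) (h0 : constantCoeff (T.τF (G.ι f)) ≠ 0) : f⁻¹ ∈ T.O := by
  obtain ⟨g, h1, h2, h3⟩ := (T.mem_O f).1 h
  have hf : f ≠ 0 := fun e => h0 (by rw [e, map_zero, map_zero, map_zero])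
  refine (T.mem_O _).2 ⟨g * f, h3, ?_, by rwa [mul_inv_cancel_right₀ hf]⟩
  rw [map_mul, T.τF_mul _ (T.C_le (G.ι_mem_C h1)) _ (T.ι_mem h), map_mul]
  exact mul_ne_zero h2 h0

theorem inv_mem_OF {f : E} (h : f ∈ T.OF) (h0 : constantCoeff (T.τF f) ≠ 0) : f⁻¹ ∈ T.OF := by
  obtain ⟨g, h1, h2, h3⟩ := (T.mem_OF f).1 h
  have hf : f ≠ 0 := fun e => h0 (by rw [e, map_zero, map_zero])
  refine (T.mem_OF _).2 ⟨g * f, h3, ?_, by rwa [mul_inv_cancel_right₀ hf]⟩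
  rw [T.τF_mul _ (T.C_le h1) _ h, map_mul]
  exact mul_ne_zero h2 h0

/-- At the point `e` the local ring is the whole field. -/
theorem mem_O_of_inj (h : ∀ (f : G.C j) (f' : M), G.ι f' = f → f' ≠ 0 → ev f ≠ 0) [Fintype ι]
    (f : M) : f ∈ T.O := by
  have := S.frac_B j
  obtain ⟨p, q, hq, rfl⟩ := IsFractionRing.div_surjective (A := S.B j) f
  have h1 : (q : M) ≠ 0 := fun e => nonZeroDivisors.ne_zero hq (Subtype.ext e)
  refine (T.mem_O _).2 ⟨q, q.2, ?_, ?_⟩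
  · rw [T.τF_ev ⟨G.ι q, G.ι_mem_C q.2⟩]
    exact h _ q rfl h1
  · show (q : M) * ((p : M) / q) ∈ S.B j
    rw [mul_div_cancel₀ _ h1]
    exact p.2

/-- The algebra homomorphism on `O`. -/
noncomputable def hom : T.O →ₐ[ℂ] MvPowerSeries (Fin b) (MvPowerSeries (Fin φ) Ω) :=
  AlgHom.ofLinearMap (T.τ ∘ₗ T.O.val.toLinearMap) T.τ_one fun f f' => T.τ_mul _ f.2 _ f'.2

/-- The algebra homomorphism on `OF`. -/
noncomputable def homF : T.OF →ₐ[Ω] MvPowerSeries (Fin φ) Ω :=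
  AlgHom.ofLinearMap (T.τF ∘ₗ T.OF.val.toLinearMap) T.τF_one fun f f' => T.τF_mul _ f.2 _ f'.2

theorem hom_apply (f : T.O) : T.hom f = T.τ f := rfl

theorem homF_apply (f : T.OF) : T.homF f = T.τF f := rfl

theorem pderiv_τF (c : Fin φ) {f : M} (h : f ∈ T.O) :
    pderiv Ω c (T.τF (G.ι f)) = T.τF (G.ι (T.D (Sum.inr c) f)) := by
  rw [← T.τ_const _ h, ← T.τ_const _ (T.coo.pres _ _ h), ← T.τ_der _ _ h]
  rfl

theorem taul_der (i : Fin b) {f : M} (h : f ∈ T.O) :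
    pderiv _ i (T.τ f) = T.τ (T.D (Sum.inl i) f) := T.τ_der (Sum.inl i) f h

theorem τF_z (c : Fin φ) :
    T.τF (G.ι (T.z c)) =
      MvPowerSeries.C (constantCoeff (T.τF (G.ι (T.z c)))) + MvPowerSeries.X c := by
  have : CharZero Ω := Algebra.charZero_of_charZero ℂ Ω
  refine ext_pderiv (by simp) fun i => ?_
  have h1 := T.coo.dual (Sum.inr i) (Sum.inr c)
  rw [Sum.elim_inr] at h1
  have hm : T.z c ∈ T.O := T.coo.mem (Sum.inr c)
  rw [T.pderiv_τF i hm, h1, map_add, pderiv_C, zero_add]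
  by_cases h : i = c
  · rw [h, if_pos rfl, map_one, T.τF_one, pderiv_X_self]
  · rw [if_neg fun e => h (Sum.inr.inj e), map_zero, map_zero, pderiv_X_of_ne (Ne.symm h)]

theorem τ_z (c : Fin φ) : T.τ (T.z c) = MvPowerSeries.C (T.τF (G.ι (T.z c))) := by
  have : CharZero Ω := Algebra.charZero_of_charZero ℂ Ω
  have hm : T.z c ∈ T.O := T.coo.mem (Sum.inr c)
  refine ext_pderiv (by rw [T.τ_const _ hm, constantCoeff_C]) fun i => ?_
  have h1 := T.coo.dual (Sum.inl i) (Sum.inr c)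
  rw [Sum.elim_inr, if_neg Sum.inl_ne_inr] at h1
  rw [T.taul_der i hm, h1, map_zero, pderiv_C]

theorem τ_y (i : Fin b) :
    T.τ (G.y i) = MvPowerSeries.C (MvPowerSeries.C (G.e (G.y i))) + MvPowerSeries.X i := by
  have : CharZero Ω := Algebra.charZero_of_charZero ℂ Ω
  have hm : G.y i ∈ T.O := T.coo.mem (Sum.inl i)
  refine ext_pderiv ?_ fun l => ?_
  · rw [T.τ_const _ hm, G.toFib.ι_k (G.y_mem i), Algebra.algebraMap_eq_smul_one, map_smul,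
      T.τF_one, map_add, constantCoeff_C, constantCoeff_X, add_zero,
      ← Algebra.algebraMap_eq_smul_one]
    rfl
  have h1 := T.coo.dual (Sum.inl l) (Sum.inl i)
  rw [Sum.elim_inl] at h1
  rw [T.taul_der l hm, h1, map_add, pderiv_C, zero_add]
  by_cases h : l = i
  · rw [h, if_pos rfl, T.τ_one, pderiv_X_self]
  · rw [if_neg fun e => h (Sum.inl.inj e), map_zero, pderiv_X_of_ne (Ne.symm h)]

theorem taul_base {s : Ω ⊗[ℂ] M} (hs : s ∈ (Subalgebra.toSubmodule T.O).baseChange Ω) :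
    evT Ω G.ι s ∈ T.OF ∧ constantCoeff (T.τ.liftBaseChange Ω s) = T.τF (evT Ω G.ι s) ∧
      ∀ i, rder (T.D (Sum.inl i)) s ∈ (Subalgebra.toSubmodule T.O).baseChange Ω ∧
        pderiv _ i (T.τ.liftBaseChange Ω s) = T.τ.liftBaseChange Ω (rder (T.D (Sum.inl i)) s) := by
  obtain ⟨t, rfl⟩ := hs
  induction t with
  | zero => simp
  | add t t' h h' =>
    simp only [map_add]
    exact ⟨add_mem h.1 h'.1, by rw [h.2.1, h'.2.1], fun i =>
      ⟨add_mem (h.2.2 i).1 (h'.2.2 i).1, by rw [(h.2.2 i).2, (h'.2.2 i).2]⟩⟩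
  | tmul c f =>
    have hf : (f : M) ∈ T.O := f.2
    rw [LinearMap.baseChange_tmul, Submodule.subtype_apply, evT_tmul, ← Algebra.smul_def,
      LinearMap.liftBaseChange_tmul]
    refine ⟨T.OF.smul_mem (T.ι_mem hf) c, ?_, fun i => ?_⟩
    · rw [T.τF.map_smul, ← T.τ_const _ hf]
      rfl
    · rw [rder_tmul, LinearMap.liftBaseChange_tmul, ← T.taul_der i hf]
      refine ⟨Submodule.tmul_mem_baseChange_of_mem _ (T.coo.pres _ _ hf), ?_⟩
      ext β : 1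
      rw [coeff_pderiv]
      show c • coeff _ (T.τ f) * _ = c • coeff β (pderiv _ i (T.τ f))
      rw [coeff_pderiv, smul_mul_assoc]

variable [CharZero E]

/-- Sketch: `coeff β ψ * β! = constantCoeff (∂ ^ β ψ)`, `τ_der`, `τ_const`. -/
theorem coeff_lift {s : Ω ⊗[ℂ] M} (hs : s ∈ (Subalgebra.toSubmodule T.O).baseChange Ω)
    (β : Fin b →₀ ℕ) :
    coeff β (tayL Ω G.ι (Comm.inl T.coo.toFrame.comm) s) ∈ T.OF ∧
    coeff β (T.τ.liftBaseChange Ω s) =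
      T.τF (coeff β (tayL Ω G.ι (Comm.inl T.coo.toFrame.comm) s)) := by
  have : CharZero Ω := Algebra.charZero_of_charZero ℂ Ω
  have e : ∀ s, tayL Ω G.ι (Comm.inl T.coo.toFrame.comm) s =
      tay (comm_rder (Comm.inl T.coo.toFrame.comm)) (evT Ω G.ι).toRingHom s := fun _ => rfl
  constructor
  · rw [e, coeff_tay, Rat.smul_def, ← map_ratCast (algebraMap Ω E)]
    exact mul_mem (T.OF.algebraMap_mem _) (T.taul_base (dpow_mem
      (S := ((Subalgebra.toSubmodule T.O).baseChange Ω : Set (Ω ⊗[ℂ] M))) _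
      (fun i f hf => ((T.taul_base hf).2.2 i).1) β hs)).1
  induction β using deg_ind generalizing s with
  | h0 =>
    rw [coeff_zero_eq_constantCoeff_apply, coeff_zero_eq_constantCoeff_apply, e,
      constantCoeff_tay]
    exact (T.taul_base hs).2.1
  | h1 β i ih =>
    obtain ⟨h1, h2⟩ := (T.taul_base hs).2.2 i
    have h3 := ih h1
    rw [← h2, e, ← pderiv_tay, ← e, coeff_pderiv, coeff_pderiv, ← Nat.cast_succ, ← Nat.cast_succ,
      mul_comm, mul_comm (coeff _ _), ← nsmul_eq_mul, ← nsmul_eq_mul, map_nsmul,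
      ← Nat.cast_smul_eq_nsmul Ω, ← Nat.cast_smul_eq_nsmul Ω] at h3
    exact smul_right_injective _ (Nat.cast_ne_zero.2 (Nat.succ_ne_zero _)) h3

theorem lift_inj {s : Ω ⊗[ℂ] M} (hs : s ∈ (Subalgebra.toSubmodule T.O).baseChange Ω)
    (h : T.τ.liftBaseChange Ω s = 0) : s = 0 := by
  refine G.tayL_inj T.coo.toFrame ?_
  rw [map_zero]
  ext β
  obtain ⟨h1, h2⟩ := T.coeff_lift hs β
  rw [h, map_zero] at h2
  rw [T.τF_inj _ h1 h2.symm, map_zero]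

/-- The expansions of the sections of `m ξ + a H`. -/
noncomputable def VT (m a : ℕ) : Submodule Ω (MvPowerSeries (Fin b) (MvPowerSeries (Fin φ) Ω)) :=
  Submodule.span Ω ((fun f => T.τ (f / S.X j ^ a)) '' S.V m a)

omit [CharZero E] in
theorem taul_VT (m a : ℕ) : T.VT m a = ((S.V m a).baseChange Ω).map
    (T.τ.liftBaseChange Ω ∘ₗ LinearMap.mulRight Ω ((1 : Ω) ⊗ₜ[ℂ] (S.X j ^ a)⁻¹)) := by
  rw [VT, Submodule.baseChange_eq_span, Submodule.map_span, Submodule.map_coe, Set.image_image]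
  congr 1
  refine Set.image_congr fun f _ => ?_
  simp [div_eq_mul_inv]

omit [CharZero E] in
theorem taul_mem {m a : ℕ} {s : Ω ⊗[ℂ] M} (hs : s ∈ (S.V m a).baseChange Ω) :
    s * (1 : Ω) ⊗ₜ[ℂ] (S.X j ^ a)⁻¹ ∈ (Subalgebra.toSubmodule T.O).baseChange Ω := by
  obtain ⟨t, rfl⟩ := hs
  induction t with
  | zero => simp
  | add t t' h h' =>
    rw [map_add, add_mul]
    exact add_mem h h'
  | tmul c f =>
    rw [LinearMap.baseChange_tmul, Submodule.subtype_apply, Algebra.TensorProduct.tmul_mul_tmul,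
      ← div_eq_mul_inv]
    exact Submodule.tmul_mem_baseChange_of_mem _ (T.B_le (S.V_le_U m a f.2 j))

/-- Sketch: `coeff_lift`, `τF_inj`, `Wt_frame`; `tayL (1 ⊗ X j ^ a)` is a unit with constant
coefficient `G.X j ^ a`, so multiplication by it preserves `Fil` (`coeff_Fil_mul` with `0`). -/
theorem mem_Wl_VT {m a : ℕ} {α : Fin b →₀ ℕ} {ψ : MvPowerSeries (Fin φ) Ω} :
    ψ ∈ Wl MonomialOrder.degLex (T.VT m a) α ↔ ∃ w ∈ G.W m a α, T.τF (w / G.X j ^ a) = ψ := by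
  have hX : S.X j ^ a ≠ 0 := pow_ne_zero _ (S.X_ne j)
  have key : ∀ s ∈ (S.V m a).baseChange Ω,
      (T.τ.liftBaseChange Ω (s * (1 : Ω) ⊗ₜ[ℂ] (S.X j ^ a)⁻¹) ∈ Fil MonomialOrder.degLex α ↔
        tayL Ω G.ι (Comm.inl T.coo.toFrame.comm) s ∈ Fil MonomialOrder.degLex α) ∧
      (tayL Ω G.ι (Comm.inl T.coo.toFrame.comm) s ∈ Fil MonomialOrder.degLex α →
        coeff α (T.τ.liftBaseChange Ω (s * (1 : Ω) ⊗ₜ[ℂ] (S.X j ^ a)⁻¹)) =
          T.τF (coeff α (tayL Ω G.ι (Comm.inl T.coo.toFrame.comm) s) / G.X j ^ a)) := by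
    intro s hs
    have h1 := T.coeff_lift (T.taul_mem hs)
    refine ⟨⟨fun h => ?_, fun h β hβ => ?_⟩, fun h => ?_⟩
    · have h2 : tayL Ω G.ι (Comm.inl T.coo.toFrame.comm) (s * (1 : Ω) ⊗ₜ[ℂ] (S.X j ^ a)⁻¹) ∈
          Fil MonomialOrder.degLex α := fun β hβ =>
        T.τF_inj _ (h1 β).1 ((h1 β).2.symm.trans (h β hβ))
      have h3 : s = s * (1 : Ω) ⊗ₜ[ℂ] (S.X j ^ a)⁻¹ * (1 : Ω) ⊗ₜ[ℂ] (S.X j ^ a) := by
        rw [mul_assoc, Algebra.TensorProduct.tmul_mul_tmul, inv_mul_cancel₀ hX, mul_one,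
          ← Algebra.TensorProduct.one_def, mul_one]
      rw [h3, map_mul]
      exact Ideal.mul_mem_right _ _ h2
    · rw [(h1 β).2, map_mul, Ideal.mul_mem_right _ _ h β hβ, map_zero]
    · have h2 := coeff_Fil_mul MonomialOrder.degLex h (mem_Fil_zero _
        (tayL Ω G.ι (Comm.inl T.coo.toFrame.comm) ((1 : Ω) ⊗ₜ[ℂ] (S.X j ^ a)⁻¹)))
      have h3 : constantCoeff (tayL Ω G.ι (Comm.inl T.coo.toFrame.comm)
          ((1 : Ω) ⊗ₜ[ℂ] (S.X j ^ a)⁻¹)) = evT Ω G.ι ((1 : Ω) ⊗ₜ[ℂ] (S.X j ^ a)⁻¹) :=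
        constantCoeff_tay _ _ _
      rw [add_zero, coeff_zero_eq_constantCoeff_apply, h3, evT_tmul, map_one, one_mul, map_inv₀,
        map_pow] at h2
      rw [(h1 α).2, map_mul, h2, div_eq_mul_inv]
      rfl
  rw [T.taul_VT, Geo.W, ← G.Wt_frame T.coo.toFrame, Wt, mem_Wl]
  constructor
  · rintro ⟨_, ⟨s, hs, rfl⟩, h1, rfl⟩
    have h2 := (key s hs).1.1 h1
    exact ⟨_, (mem_Wl _).2 ⟨_, ⟨s, hs, rfl⟩, h2, rfl⟩, ((key s hs).2 h2).symm⟩
  · rintro ⟨w, hw, rfl⟩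
    obtain ⟨_, ⟨s, hs, rfl⟩, h1, rfl⟩ := (mem_Wl _).1 hw
    exact ⟨_, ⟨s, hs, rfl⟩, (key s hs).1.2 h1, (key s hs).2 h1⟩

end Pool.Agent.Lib.MP_bc213e_ag.DD.Geo.Tau
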