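import Pool.Agent.Lib.MP_bc213e_ag.DB.Api

/-! The spaces of leading coefficients. -/

namespace Pool.Agent.Lib.MP_bc213e_ag.DD

open Pool.Agent.Lib.MP_bc213e_ag.Hyp Pool.Agent.Lib.MP_bc213e_ag.DA Pool.Agent.Lib.MP_bc213e_ag.Jet
open MvPowerSeries Module
open scoped TensorProduct MonomialOrder

theorem dpow_comm' {σ k T : Type} [Fintype σ] [DecidableEq σ] [CommRing k] [CommRing T]
    [Algebra k T] {D : σ → Derivation k T T} (hD : Comm D) {δ : Derivation k T T}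
    (h : ∀ i f, D i (δ f) = δ (D i f)) (β : σ →₀ ℕ) (f : T) :
    dpow hD β (δ f) = δ (dpow hD β f) := by
  induction β using deg_ind with
  | h0 => rw [dpow_zero, dpow_zero]
  | h1 β i ih => rw [dpow_add_single, dpow_add_single, ih, h]

section ten

variable {Ω E M : Type} [Field Ω] [Algebra ℂ Ω] [Field E] [Algebra ℂ E] [Algebra Ω E]
  [IsScalarTower ℂ Ω E] [Field M] [Algebra ℂ M]

theorem baseChange_mul {A B C : Submodule ℂ M} (h : ∀ f ∈ A, ∀ g ∈ B, f * g ∈ C)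
    {s t : Ω ⊗[ℂ] M} (hs : s ∈ A.baseChange Ω) (ht : t ∈ B.baseChange Ω) :
    s * t ∈ C.baseChange Ω := by
  obtain ⟨s, rfl⟩ := hs
  obtain ⟨t, rfl⟩ := ht
  induction s with
  | zero => simp
  | add s s' h h' => rw [map_add, add_mul]; exact add_mem h h'
  | tmul c f =>
    induction t with
    | zero => simp
    | add t t' h h' => rw [map_add, mul_add]; exact add_mem h h'
    | tmul c' g =>
      rw [LinearMap.baseChange_tmul, LinearMap.baseChange_tmul, Algebra.TensorProduct.tmul_mul_tmul]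
      exact C.tmul_mem_baseChange_of_mem _ (h _ f.2 _ g.2)

variable [CharZero E] {b : ℕ} (ι : M →ₐ[ℂ] E) {D : Fin b → Derivation ℂ M M} (h : Comm D)

theorem coeff_tayL (s : Ω ⊗[ℂ] M) (β : Fin b →₀ ℕ) :
    coeff β (tayL Ω ι h s) = ((mfac β : ℚ)⁻¹) • evT Ω ι (dpow (comm_rder h) β s) := rfl

theorem coeff_tayL_eq_zero (s : Ω ⊗[ℂ] M) (β : Fin b →₀ ℕ) :
    coeff β (tayL Ω ι h s) = 0 ↔ evT Ω ι (dpow (comm_rder h) β s) = 0 :=
  coeff_tay_eq_zero _ _ _ _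

theorem constantCoeff_tayL (s : Ω ⊗[ℂ] M) : constantCoeff (tayL Ω ι h s) = evT Ω ι s :=
  constantCoeff_tay _ _ _

theorem pderiv_tayL (s : Ω ⊗[ℂ] M) (i : Fin b) :
    pderiv E i (tayL Ω ι h s) = tayL Ω ι h (rder (D i) s) := pderiv_tay (comm_rder h) _ _ _

theorem mem_Wt {V : Submodule ℂ M} {α : Fin b →₀ ℕ} {w : E} : w ∈ Wt Ω ι h V α ↔
    ∃ s ∈ V.baseChange Ω, tayL Ω ι h s ∈ Fil MonomialOrder.degLex α ∧
      coeff α (tayL Ω ι h s) = w :=
  (mem_Wl _).trans ⟨fun ⟨_, ⟨s, h1, e⟩, h2⟩ => ⟨s, h1, (e : tayL Ω ι h s = _) ▸ h2⟩,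
    fun ⟨s, h1, h2⟩ => ⟨_, ⟨s, h1, rfl⟩, h2⟩⟩

/-- The left derivative acts on the lowest terms as minus the derivative. -/
theorem coeff_lder {d : Derivation ℂ Ω Ω} {i : Fin b}
    (hd : ∀ s : Ω ⊗[ℂ] M, evT Ω ι s = 0 → evT Ω ι (lder d s + rder (D i) s) = 0) {s : Ω ⊗[ℂ] M}
    {β : Fin b →₀ ℕ} (h0 : coeff β (tayL Ω ι h s) = 0) :
    coeff β (tayL Ω ι h (lder d s)) =
      -(coeff (β + Finsupp.single i 1) (tayL Ω ι h s) * (β i + 1)) := by
  rw [← coeff_pderiv, pderiv_tayL, eq_neg_iff_add_eq_zero, ← map_add, ← map_add,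
    coeff_tayL_eq_zero, map_add, dpow_comm' _ fun l f => (lder_rder d (D l) f).symm,
    dpow_comm (comm_rder h)]
  exact hd _ ((coeff_tayL_eq_zero ι h s β).1 h0)

end ten

namespace Geo

variable {K M ι : Type} [Field K] [Algebra ℂ K] [Field M] [Algebra ℂ M] [Algebra K M] {n : ℕ}
  {S : Su K M ι n} {Ω E : Type} [Field Ω] [Algebra ℂ Ω] [Field E] [Algebra ℂ E] [Algebra Ω E]
  [IsScalarTower ℂ Ω E] {b φ : ℕ} (G : Geo S Ω E b φ) [CharZero E]
  {z z' : Fin φ → M} {D D' : Fin b ⊕ Fin φ → Derivation ℂ M M}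

omit [CharZero E] in
theorem D_inl (h : Frame (Sum.elim G.y z) D) (i l : Fin b) :
    D (Sum.inl i) (G.y l) = if i = l then 1 else 0 :=
  (h.dual _ (Sum.inl l)).trans (if_congr Sum.inl_injective.eq_iff rfl rfl)

omit [CharZero E] in
theorem D_inr (h : Frame (Sum.elim G.y z) D) (c : Fin φ) (l : Fin b) :
    D (Sum.inr c) (G.y l) = 0 := (h.dual _ (Sum.inl l)).trans (if_neg Sum.inr_ne_inl)

theorem tayL_inj (h : Frame (Sum.elim G.y z) D) :
    Function.Injective (tayL Ω G.ι (Comm.inl h.comm)) := by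
  rw [injective_iff_map_eq_zero]
  have h0 : ∀ s, tayL Ω G.ι (Comm.inl h.comm) s = 0 ↔
      ∀ β, evT Ω G.ι (dpow (comm_rder (Comm.inl h.comm)) β s) = 0 := fun s =>
    MvPowerSeries.ext_iff.trans (forall_congr' fun β => coeff_tay_eq_zero _ _ _ _)
  have h1 := simple_of (𝒟 := Set.range D) (I := RingHom.ker (tayL Ω G.ι (Comm.inl h.comm)))
    (fun f hf => const_of_der fun δ => by
      rw [h.expand]
      exact Finset.sum_eq_zero fun c _ => by rw [hf _ ⟨c, rfl⟩, mul_zero]) ?_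
    (RingHom.ker_ne_top _)
  · exact fun s hs => h1.le hs
  rintro _ ⟨c, rfl⟩ s hs
  rw [RingHom.mem_ker, h0] at hs ⊢
  intro β
  rw [dpow_comm' _ fun i => rder_comm (h.comm _ c)]
  rcases c with i | c
  · rw [← dpow_add_single (comm_rder (Comm.inl h.comm))]
    exact hs _
  · exact G.pres_of_kill (G.D_inr h c) (hs β)

/-- The terms of lowest degree do not depend on the frame. -/
theorem coeff_frame (h : Frame (Sum.elim G.y z) D) (h' : Frame (Sum.elim G.y z') D')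
    (β : Fin b →₀ ℕ) (s : Ω ⊗[ℂ] M)
    (hs : tayL Ω G.ι (Comm.inl h.comm) s ∈ Ord (Fin b) E β.degree) :
    coeff β (tayL Ω G.ι (Comm.inl h'.comm) s) = coeff β (tayL Ω G.ι (Comm.inl h.comm) s) := by
  obtain ⟨d, -, -, hd⟩ := G.exists_left
  induction β using deg_ind generalizing s with
  | h0 =>
    rw [coeff_zero_eq_constantCoeff_apply, coeff_zero_eq_constantCoeff_apply, constantCoeff_tayL,
      constantCoeff_tayL]
  | h1 β i ih =>
    have e : ∀ γ : Fin b →₀ ℕ, (γ + Finsupp.single i 1).degree = γ.degree + 1 := fun γ => by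
      rw [map_add, Finsupp.degree_single]
    rw [e] at hs
    have h1 := hs β (Nat.lt_succ_self _)
    have h2 := ih (lder (d i) s) fun γ hγ => by
      rw [coeff_lder _ _ (hd i _ (G.D_inl h i)) (hs γ (by omega)), hs _ (by rw [e]; omega),
        zero_mul, neg_zero]
    rw [coeff_lder _ _ (hd i _ (G.D_inl h i)) h1, coeff_lder _ _ (hd i _ (G.D_inl h' i))
      ((ih s (Ord_anti (Nat.le_succ _) hs)).trans h1), neg_inj] at h2
    exact mul_right_cancel₀ (Nat.cast_add_one_ne_zero _) h2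

theorem Wt_le (h : Frame (Sum.elim G.y z) D) (h' : Frame (Sum.elim G.y z') D') (V : Submodule ℂ M)
    (α : Fin b →₀ ℕ) : Wt Ω G.ι (Comm.inl h.comm) V α ≤ Wt Ω G.ι (Comm.inl h'.comm) V α := by
  intro w hw
  obtain ⟨s, h1, h2, rfl⟩ := (mem_Wt _ _).1 hw
  have h3 := fun (γ : Fin b →₀ ℕ) (hγ : γ ≼[MonomialOrder.degLex] α) =>
    G.coeff_frame h h' γ s (Ord_anti (lemg_deg hγ) (Fil_le_Ord α h2))
  exact (mem_Wt _ _).2 ⟨s, h1, fun γ hγ => (h3 γ hγ.le).trans (h2 γ hγ), h3 α le_rfl⟩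

theorem Wt_frame (h : Frame (Sum.elim G.y z) D) (V : Submodule ℂ M) (α : Fin b →₀ ℕ) :
    Wt Ω G.ι (Comm.inl h.comm) V α = Wt Ω G.ι (Comm.inl G.frame.comm) V α :=
  le_antisymm (G.Wt_le h G.frame V α) (G.Wt_le G.frame h V α)

theorem Wt_down (h : Frame (Sum.elim G.y z) D) (V : Submodule ℂ M) {α β : Fin b →₀ ℕ}
    (hle : α ≤ β) : Wt Ω G.ι (Comm.inl h.comm) V β ≤ Wt Ω G.ι (Comm.inl h.comm) V α := by
  have : CharZero Ω := charZero_of_injective_algebraMap (algebraMap ℂ Ω).injective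
  obtain ⟨d, -, -, hd⟩ := G.exists_left
  obtain ⟨γ, rfl⟩ := exists_add_of_le hle
  clear hle
  induction γ using deg_ind with
  | h0 => rw [add_zero]
  | h1 γ i ih =>
    refine le_trans (fun w hw => ?_) ih
    rw [← add_assoc] at hw
    generalize α + γ = β at hw ⊢
    obtain ⟨s, h1, h2, rfl⟩ := (mem_Wt _ _).1 hw
    have h3 : β ≺[MonomialOrder.degLex] β + Finsupp.single i 1 :=
      MonomialOrder.degLex.toSyn_strictMono (lt_add_of_pos_right _ (by simp [pos_iff_ne_zero]))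
    rw [← Submodule.smul_mem_iff _ (neg_ne_zero.2 (Nat.cast_add_one_ne_zero (R := Ω) (β i)))]
    refine (mem_Wt _ _).2 ⟨lder (d i) s, lder_mem _ _ h1, fun δ hδ => ?_, ?_⟩
    · rw [coeff_lder _ _ (hd i _ (G.D_inl h i)) (h2 δ (hδ.trans h3)),
        h2 _ (by rw [map_add, map_add]; exact add_lt_add_left hδ _), zero_mul, neg_zero]
    · rw [coeff_lder _ _ (hd i _ (G.D_inl h i)) (h2 β h3), Algebra.smul_def]
      simp only [map_neg, map_add, map_natCast, map_one]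
      ring

theorem Wt_zero (h : Frame (Sum.elim G.y z) D) (V : Submodule ℂ M) :
    Wt Ω G.ι (Comm.inl h.comm) V 0 = (V.baseChange Ω).map (evT Ω G.ι).toLinearMap := by
  ext w
  simp only [mem_Wt, mem_Fil_zero, true_and, coeff_zero_eq_constantCoeff_apply, constantCoeff_tayL]
  rfl

variable [IsScalarTower ℂ K M]

theorem W_down (m a : ℕ) {α β : Fin b →₀ ℕ} (h : α ≤ β) : G.W m a β ≤ G.W m a α :=
  G.Wt_down G.frame _ h

theorem W_zero (m a : ℕ) : G.W m a 0 = ((S.V m a).baseChange Ω).map (evT Ω G.ι).toLinearMap :=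
  G.Wt_zero G.frame _

theorem W_le_R (m a : ℕ) (α : Fin b →₀ ℕ) : G.W m a α ≤ G.R a :=
  (G.W_down m a (zero_le (a := α))).trans ((G.W_zero m a).le.trans
    (Submodule.map_mono (Submodule.baseChange_mono Ω (S.V_le_U m a))))

theorem W_mono {m m' a a' : ℕ} (hm : m ≤ m') (ha : a ≤ a') (α : Fin b →₀ ℕ) :
    G.W m a α ≤ G.W m' a' α :=
  Wl_mono _ (Submodule.map_mono (Submodule.baseChange_mono Ω (S.V_mono hm ha))) α

variable {G} in
theorem W_mul {m m' a a' : ℕ} {α α' : Fin b →₀ ℕ} {w w' : E} (h : w ∈ G.W m a α)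
    (h' : w' ∈ G.W m' a' α') : w * w' ∈ G.W (m + m') (a + a') (α + α') := by
  refine Wl_mul _ ?_ h h'
  rintro _ ⟨s, hs, rfl⟩ _ ⟨t, ht, rfl⟩
  exact ⟨s * t, baseChange_mul (fun _ hf _ hg => Su.mul_mem_V hf hg) hs ht,
    map_mul (tayL Ω G.ι (Comm.inl G.frame.comm)) s t⟩

theorem ι_mem_W {m a : ℕ} {f : M} (h : f ∈ S.V m a) : G.ι f ∈ G.W m a 0 :=
  G.W_zero m a ▸ ⟨_, Submodule.tmul_mem_baseChange_of_mem 1 h, evT_one _ _⟩

theorem one_mem_W (m a : ℕ) : (1 : E) ∈ G.W m a 0 := map_one G.ι ▸ G.ι_mem_W (S.one_mem_V m a)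

theorem X_pow_mem_W (j : ι) (a : ℕ) : G.X j ^ a ∈ G.W 0 a 0 := by
  have h := G.ι_mem_W (Su.pow_mem_V (S.X_mem_V j) a)
  rwa [mul_zero, mul_one, map_pow] at h

variable [Fintype ι]

theorem fd_tay (m a : ℕ) : FiniteDimensional Ω
    (((S.V m a).baseChange Ω).map (tayL Ω G.ι (Comm.inl G.frame.comm)).toLinearMap) := by
  have := S.fd_V m a
  have := Module.Finite.equiv (Submodule.toBaseChange.toLinearEquiv Ω (S.V m a))
  infer_instance

omit [Fintype ι] in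
theorem finrank_tay (m a : ℕ) : finrank Ω (((S.V m a).baseChange Ω).map
    (tayL Ω G.ι (Comm.inl G.frame.comm)).toLinearMap) = finrank ℂ (S.V m a) := by
  rw [← (Submodule.equivMapOfInjective _ (G.tayL_inj G.frame) _).finrank_eq,
    ← (Submodule.toBaseChange.toLinearEquiv Ω (S.V m a)).finrank_eq, Module.finrank_baseChange]

theorem W_finite (m a : ℕ) : {α | G.W m a α ≠ ⊥}.Finite :=
  haveI := G.fd_tay m a
  Wl_finite _ _

theorem W_sum_le (m a : ℕ) (A : Finset (Fin b →₀ ℕ)) :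
    ∑ α ∈ A, finrank Ω (G.W m a α) ≤ finrank ℂ (S.V m a) :=
  haveI := G.fd_tay m a
  G.finrank_tay m a ▸ sum_Wl_le _ _ A

theorem W_sum_eq (m a : ℕ) (A : Finset (Fin b →₀ ℕ)) (hA : ∀ α, G.W m a α ≠ ⊥ → α ∈ A) :
    ∑ α ∈ A, finrank Ω (G.W m a α) = finrank ℂ (S.V m a) :=
  haveI := G.fd_tay m a
  G.finrank_tay m a ▸ sum_Wl_eq _ _ A hA

end Geo

end Pool.Agent.Lib.MP_bc213e_ag.DD
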